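import Pool.Agent.H188.UB.Defs

set_option autoImplicit false

namespace Pool.Agent.H188.UB

open Pool.Agent.H188.NL (occ)

/-- the basic oscillations -/
noncomputable def ev (x : ℝ) (k : ℕ) (c : Bool) : ℝ :=
  (2 : ℝ) ^ (k + 2) * (if c then Real.cos (2 * Real.pi * x / (2 : ℝ) ^ (k + 2)) else
    Real.sin (2 * Real.pi * x / (2 : ℝ) ^ (k + 2)))

theorem ev_lip (htrig : S_trig) (x : ℝ) (k : ℕ) (c : Bool) :
    |ev (x + 1) k c - ev x k c| ≤ 13 / 2 := by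
  have h := htrig.2 x ((2 : ℝ) ^ (k + 2)) (by positivity)
  cases c
  · exact h.2
  · exact h.1

theorem ev_big (htrig : S_trig) (x u : ℝ) (k : ℕ) (h1 : (2 : ℝ) ^ k ≤ u)
    (h2 : u ≤ (2 : ℝ) ^ (k + 1)) :
    ∃ c, 2 * u ≤ |ev (x + u) k c + ev (x - u) k c - 2 * ev x k c| := by
  have h := htrig.1 x u ((2 : ℝ) ^ (k + 2)) (by positivity)
    (by rw [pow_add]; norm_num; linarith) (by
      have : (2 : ℝ) ^ (k + 2) = 2 * (2 : ℝ) ^ (k + 1) := by ring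
      rw [this]
      linarith)
  have hs : 2 * u ≤ (2 : ℝ) ^ (k + 2) := by
    have : (2 : ℝ) ^ (k + 2) = 2 * (2 : ℝ) ^ (k + 1) := by ring
    linarith
  rcases h with h | h
  · refine ⟨true, hs.trans (h.trans (le_of_eq ?_))⟩
    congr 1
    unfold ev
    simp only [if_true]
    ring
  · refine ⟨false, hs.trans (h.trans (le_of_eq ?_))⟩
    congr 1
    unfold ev
    simp only [Bool.false_eq_true, if_false]
    ring

theorem upper (hwrd : S_wrd) (havg : S_avg) (htrig : S_trig) (hfloor : S_floor) (hsum : S_sum)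
    (n : ℕ) (hn : 3 ≤ n) :
    ∃ w : List Bool, w.length = n ∧ ((occ w).ncard : ℝ) ≤ 240 * n * (Real.log n) ^ 2 := by
  classical
  obtain ⟨J, hJ⟩ : ∃ J, J = Nat.log 2 n + 1 := ⟨_, rfl⟩
  have hJ1 : (1 : ℝ) ≤ J := by rw [hJ]; push_cast; linarith [Nat.cast_nonneg (α := ℝ) (Nat.log 2 n)]
  have hn1 : (3 : ℝ) ≤ n := by exact_mod_cast hn
  obtain ⟨κ, hκ⟩ : ∃ κ : ℝ, κ = 1 / (26 * J * n) := ⟨_, rfl⟩
  have hκ0 : 0 < κ := by rw [hκ]; positivity
  have hκ1 : κ * (26 * J * n) = 1 := by rw [hκ]; field_simp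
  obtain ⟨t, ht⟩ := havg J n (P n)
    (fun z i => κ * (ev ((z.1 : ℝ) + z.2) i.1 i.2 + ev ((z.1 : ℝ) - z.2) i.1 i.2 -
      2 * ev (z.1 : ℝ) i.1 i.2))
    (fun z => (z.2 : ℝ) / (13 * J * n)) (by omega) (by
      intro z hz
      unfold P at hz
      rw [Finset.mem_filter, Finset.mem_product, Finset.mem_Icc, Finset.mem_Icc] at hz
      obtain ⟨⟨⟨_, _⟩, ⟨z1, z2⟩⟩, _, _⟩ := hz
      have z1' : (1 : ℝ) ≤ z.2 := by exact_mod_cast z1
      refine ⟨by positivity, ?_⟩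
      obtain ⟨u, hu⟩ : ∃ u : ℕ, z.2 = u := ⟨z.2.toNat, by omega⟩
      have hu1 : 1 ≤ u := by omega
      have hun : u ≤ n := by omega
      have hlog : Nat.log 2 u < J := by
        have := Nat.log_mono_right (b := 2) hun
        omega
      have k1 : 2 ^ Nat.log 2 u ≤ u := Nat.pow_log_le_self 2 (by omega)
      have k2 : u < 2 ^ (Nat.log 2 u + 1) := Nat.lt_pow_succ_log_self (by norm_num) u
      have k1' : (2 : ℝ) ^ Nat.log 2 u ≤ (z.2 : ℝ) := by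
        rw [hu]
        push_cast
        exact_mod_cast k1
      have k2' : (z.2 : ℝ) ≤ (2 : ℝ) ^ (Nat.log 2 u + 1) := by
        rw [hu]
        push_cast
        exact_mod_cast k2.le
      obtain ⟨c, hc⟩ := ev_big htrig (z.1 : ℝ) (z.2 : ℝ) (Nat.log 2 u) k1' k2'
      refine ⟨(⟨Nat.log 2 u, hlog⟩, c), ?_⟩
      rw [abs_mul, abs_of_pos hκ0]
      refine le_trans ?_ (mul_le_mul_of_nonneg_left hc hκ0.le)
      rw [hκ]
      apply le_of_eq
      field_simp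
      ring)
  have hL : ∀ x : ℤ, |(∑ i : Fin J × Bool, ((t i : ℕ) : ℝ) * (κ * ev (((x + 1 : ℤ)) : ℝ) i.1 i.2)) -
      ∑ i : Fin J × Bool, ((t i : ℕ) : ℝ) * (κ * ev (x : ℝ) i.1 i.2)| ≤ 1 / 2 := by
    intro x
    rw [← Finset.sum_sub_distrib]
    refine (Finset.abs_sum_le_sum_abs _ _).trans ?_
    have hterm : ∀ i ∈ (Finset.univ : Finset (Fin J × Bool)),
        |((t i : ℕ) : ℝ) * (κ * ev (((x + 1 : ℤ)) : ℝ) i.1 i.2) -
          ((t i : ℕ) : ℝ) * (κ * ev (x : ℝ) i.1 i.2)| ≤ n * (κ * (13 / 2)) := by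
      intro i _
      have e : ((t i : ℕ) : ℝ) * (κ * ev (((x + 1 : ℤ)) : ℝ) i.1 i.2) -
          ((t i : ℕ) : ℝ) * (κ * ev (x : ℝ) i.1 i.2) =
          ((t i : ℕ) : ℝ) * (κ * (ev ((x : ℝ) + 1) i.1 i.2 - ev (x : ℝ) i.1 i.2)) := by
        push_cast
        ring
      rw [e, abs_mul, abs_mul, abs_of_pos hκ0, Nat.abs_cast]
      have h1 := ev_lip htrig (x : ℝ) i.1 i.2
      have h2 : ((t i : ℕ) : ℝ) ≤ n := by exact_mod_cast (t i).2.le
      have h3 : κ * |ev ((x : ℝ) + 1) i.1 i.2 - ev (x : ℝ) i.1 i.2| ≤ κ * (13 / 2) :=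
        mul_le_mul_of_nonneg_left h1 hκ0.le
      exact mul_le_mul h2 h3 (by positivity) (by positivity)
    refine (Finset.sum_le_sum hterm).trans ?_
    rw [Finset.sum_const, Finset.card_univ, Fintype.card_prod, Fintype.card_fin, Fintype.card_bool,
      nsmul_eq_mul]
    push_cast
    have : (J : ℝ) * 2 * (n * (κ * (13 / 2))) = 1 / 2 * (κ * (26 * J * n)) := by ring
    rw [this, hκ1]
    norm_num
  obtain ⟨F, hF1, hF2⟩ := hfloor
    (fun x : ℤ => ∑ i : Fin J × Bool, ((t i : ℕ) : ℝ) * (κ * ev (x : ℝ) i.1 i.2)) hL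
  obtain ⟨w, hw, hocc⟩ := hwrd F n hF1
  refine ⟨w, hw, ?_⟩
  have h1 : ((P n).filter (fun z => F (z.1 + z.2) + F (z.1 - z.2) = 2 * F z.1)).card ≤
      ((P n).filter (fun z => |∑ i : Fin J × Bool, ((t i : ℕ) : ℝ) * (κ *
        (ev ((z.1 : ℝ) + z.2) i.1 i.2 + ev ((z.1 : ℝ) - z.2) i.1 i.2 -
      2 * ev (z.1 : ℝ) i.1 i.2))| < 2)).card := by
    apply Finset.card_le_card
    intro z hz
    rw [Finset.mem_filter] at hz ⊢
    refine ⟨hz.1, ?_⟩
    have h2 := hF2 z.1 z.2 hz.2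
    rw [Finset.mul_sum, ← Finset.sum_add_distrib, ← Finset.sum_sub_distrib] at h2
    refine lt_of_le_of_lt (le_of_eq ?_) h2
    congr 1
    refine Finset.sum_congr rfl fun i _ => ?_
    push_cast
    ring
  have h2 : ((occ w).ncard : ℝ) ≤ ((P n).filter (fun z => |∑ i : Fin J × Bool,
      ((t i : ℕ) : ℝ) * (κ * (ev ((z.1 : ℝ) + z.2) i.1 i.2 + ev ((z.1 : ℝ) - z.2) i.1 i.2 -
      2 * ev (z.1 : ℝ) i.1 i.2))| < 2)).card := by
    exact_mod_cast hocc.trans h1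
  refine h2.trans (ht.trans ?_)
  refine le_trans (le_of_eq ?_) (hsum n hn)
  refine Finset.sum_congr rfl fun z hz => ?_
  unfold P at hz
  rw [Finset.mem_filter, Finset.mem_product, Finset.mem_Icc, Finset.mem_Icc] at hz
  obtain ⟨⟨⟨_, _⟩, ⟨z1, z2⟩⟩, _, _⟩ := hz
  have z1' : (1 : ℝ) ≤ z.2 := by exact_mod_cast z1
  rw [← hJ]
  field_simp
  ring

end Pool.Agent.H188.UB
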