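import Pool.Agent.H188.UB.Defs

/-!
# Project UB (helper188), U2: averaging (helper778)
-/

set_option autoImplicit false

namespace Pool.Agent.H188.UB

namespace AvgAux

open Classical in
/-- the number of the integers `m` with `|m b + R| < 2` -/
theorem cnt (M : ℕ) (b R : ℝ) (hb : 0 < |b|) :
    ((Finset.univ.filter (fun m : Fin M => |((m : ℕ) : ℝ) * b + R| < 2)).card : ℝ) ≤ 4 / |b| + 1 := by
  obtain ⟨S, hS⟩ : ∃ S : Finset (Fin M), S = Finset.univ.filter
    (fun m : Fin M => |((m : ℕ) : ℝ) * b + R| < 2) := ⟨_, rfl⟩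
  rw [← hS]
  rcases S.eq_empty_or_nonempty with h | h
  · rw [h]
    simp only [Finset.card_empty, Nat.cast_zero]
    positivity
  · obtain ⟨x, hx⟩ : ∃ x, x = S.min' h := ⟨_, rfl⟩
    obtain ⟨y, hy⟩ : ∃ y, y = S.max' h := ⟨_, rfl⟩
    have hxS : x ∈ S := hx ▸ S.min'_mem h
    have hyS : y ∈ S := hy ▸ S.max'_mem h
    have hsub : S ⊆ Finset.Icc x y := by
      intro m hm
      rw [Finset.mem_Icc]
      exact ⟨hx ▸ S.min'_le m hm, hy ▸ S.le_max' m hm⟩
    have hxy : x ≤ y := (Finset.mem_Icc.1 (hsub hxS)).2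
    have hc : S.card ≤ (y : ℕ) + 1 - (x : ℕ) := by
      have h1 := Finset.card_le_card hsub
      rwa [Fin.card_Icc] at h1
    have hxy' : (x : ℕ) ≤ (y : ℕ) := hxy
    have hc' : (S.card : ℝ) ≤ ((y : ℕ) : ℝ) - ((x : ℕ) : ℝ) + 1 := by
      have h1 : S.card + (x : ℕ) ≤ (y : ℕ) + 1 := by omega
      have h2 : ((S.card + (x : ℕ) : ℕ) : ℝ) ≤ (((y : ℕ) + 1 : ℕ) : ℝ) := by exact_mod_cast h1
      push_cast at h2
      linarith
    have h1 : |((x : ℕ) : ℝ) * b + R| < 2 := by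
      rw [hS] at hxS
      exact (Finset.mem_filter.1 hxS).2
    have h2 : |((y : ℕ) : ℝ) * b + R| < 2 := by
      rw [hS] at hyS
      exact (Finset.mem_filter.1 hyS).2
    have h3 : |(((y : ℕ) : ℝ) - ((x : ℕ) : ℝ)) * b| < 4 := by
      have e : (((y : ℕ) : ℝ) - ((x : ℕ) : ℝ)) * b =
          (((y : ℕ) : ℝ) * b + R) - (((x : ℕ) : ℝ) * b + R) := by ring
      rw [e]
      have := abs_sub (((y : ℕ) : ℝ) * b + R) (((x : ℕ) : ℝ) * b + R)
      linarith
    have h4 : (0 : ℝ) ≤ ((y : ℕ) : ℝ) - ((x : ℕ) : ℝ) := by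
      have : ((x : ℕ) : ℝ) ≤ ((y : ℕ) : ℝ) := by exact_mod_cast hxy'
      linarith
    rw [abs_mul, abs_of_nonneg h4] at h3
    have h5 : ((y : ℕ) : ℝ) - ((x : ℕ) : ℝ) ≤ 4 / |b| := by
      rw [le_div_iff₀ hb]
      exact h3.le
    linarith

/-- `(t, m) ↦ (update t i m, t i)` -/
def sw {I A : Type} [DecidableEq I] (i : I) (p : (I → A) × A) : (I → A) × A :=
  (Function.update p.1 i p.2, p.1 i)

theorem sw_inv {I A : Type} [DecidableEq I] (i : I) : Function.Involutive (sw (A := A) i) := by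
  rintro ⟨t, m⟩
  simp [sw]

open Classical in
/-- averaging over one coordinate -/
theorem one {I : Type} [Fintype I] [DecidableEq I] (M : ℕ) (i : I) (b : I → ℝ) (l : ℝ) (hl : 0 < l)
    (hb : l ≤ |b i|) :
    ((Finset.univ.filter (fun t : I → Fin M => |∑ j, ((t j : ℕ) : ℝ) * b j| < 2)).card : ℝ) * M ≤
      (4 / l + 1) * (Fintype.card (I → Fin M) : ℝ) := by
  obtain ⟨f, hf⟩ : ∃ f : (I → Fin M) → ℝ, f = fun t => if |∑ j, ((t j : ℕ) : ℝ) * b j| < 2 then 1 else 0 :=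
    ⟨_, rfl⟩
  have h1 : ((Finset.univ.filter (fun t : I → Fin M => |∑ j, ((t j : ℕ) : ℝ) * b j| < 2)).card : ℝ) =
      ∑ t, f t := by
    rw [Finset.card_filter, hf]
    push_cast
    rfl
  have h2 : (∑ t, f t) * (M : ℝ) = ∑ p : (I → Fin M) × Fin M, f p.1 := by
    rw [Fintype.sum_prod_type, Finset.sum_mul]
    refine Finset.sum_congr rfl fun t _ => ?_
    show f t * (M : ℝ) = ∑ _y : Fin M, f t
    rw [Finset.sum_const, Finset.card_univ, Fintype.card_fin, nsmul_eq_mul]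
    ring
  have h3 : ∑ p : (I → Fin M) × Fin M, f p.1 = ∑ p : (I → Fin M) × Fin M, f (sw i p).1 :=
    (Equiv.sum_comp ((sw_inv (A := Fin M) i).toPerm) (fun p : (I → Fin M) × Fin M => f p.1)).symm
  have hb0 : 0 < |b i| := lt_of_lt_of_le hl hb
  have h4 : ∀ t : I → Fin M, ∑ m : Fin M, f (Function.update t i m) ≤ 4 / l + 1 := by
    intro t
    have h5 : ∀ m : Fin M, ∑ j, (((Function.update t i m) j : ℕ) : ℝ) * b j =
        ((m : ℕ) : ℝ) * b i + ∑ j ∈ Finset.univ.erase i, ((t j : ℕ) : ℝ) * b j := by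
      intro m
      rw [← Finset.add_sum_erase _ _ (Finset.mem_univ i), Function.update_self]
      congr 1
      refine Finset.sum_congr rfl fun j hj => ?_
      rw [Function.update_of_ne (Finset.ne_of_mem_erase hj)]
    have h6 := cnt M (b i) (∑ j ∈ Finset.univ.erase i, ((t j : ℕ) : ℝ) * b j) hb0
    have h7 : ∑ m : Fin M, f (Function.update t i m) =
        ((Finset.univ.filter (fun m : Fin M => |((m : ℕ) : ℝ) * b i +
          ∑ j ∈ Finset.univ.erase i, ((t j : ℕ) : ℝ) * b j| < 2)).card : ℝ) := by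
      rw [Finset.card_filter, hf]
      push_cast
      refine Finset.sum_congr rfl fun m _ => ?_
      rw [h5 m]
    rw [h7]
    refine h6.trans ?_
    have : 4 / |b i| ≤ 4 / l := div_le_div_of_nonneg_left (by norm_num) hl hb
    linarith
  rw [h1, h2, h3, Fintype.sum_prod_type]
  have h8 : ∑ t : I → Fin M, ∑ m : Fin M, f (sw i (t, m)).1 ≤ ∑ _t : I → Fin M, (4 / l + 1) :=
    Finset.sum_le_sum fun t _ => h4 t
  refine h8.trans (le_of_eq ?_)
  rw [Finset.sum_const, Finset.card_univ, nsmul_eq_mul]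
  ring

end AvgAux

open AvgAux in
open Classical in
theorem t_avg : S_avg := by
  intro J M Q b lam hM hQ
  have hM0 : (0 : ℝ) < M := by exact_mod_cast hM
  have hne : Nonempty (Fin J × Bool → Fin M) := ⟨fun _ => ⟨0, hM⟩⟩
  have hpos : (0 : ℝ) < (Fintype.card (Fin J × Bool → Fin M) : ℝ) := by
    exact_mod_cast Fintype.card_pos
  have h1 : ∀ z ∈ Q, ((Finset.univ.filter (fun t : Fin J × Bool → Fin M =>
      |∑ i, ((t i : ℕ) : ℝ) * b z i| < 2)).card : ℝ) ≤
      (4 / lam z + 1) / M * (Fintype.card (Fin J × Bool → Fin M) : ℝ) := by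
    intro z hz
    obtain ⟨hl, i, hi⟩ := hQ z hz
    have h2 := one M i (b z) (lam z) hl hi
    rw [div_mul_eq_mul_div, le_div_iff₀ hM0]
    exact h2
  have h3 : ∑ t : Fin J × Bool → Fin M,
      ((Q.filter (fun z => |∑ i, ((t i : ℕ) : ℝ) * b z i| < 2)).card : ℝ) ≤
      ∑ _t : Fin J × Bool → Fin M, ∑ z ∈ Q, (4 / lam z + 1) / M := by
    have h4 : ∑ t : Fin J × Bool → Fin M,
        ((Q.filter (fun z => |∑ i, ((t i : ℕ) : ℝ) * b z i| < 2)).card : ℝ) =
        ∑ z ∈ Q, ((Finset.univ.filter (fun t : Fin J × Bool → Fin M =>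
          |∑ i, ((t i : ℕ) : ℝ) * b z i| < 2)).card : ℝ) := by
      simp only [Finset.card_filter, Nat.cast_sum]
      exact Finset.sum_comm
    rw [h4, Finset.sum_const, Finset.card_univ, nsmul_eq_mul, Finset.mul_sum]
    refine Finset.sum_le_sum fun z hz => ?_
    rw [mul_comm]
    exact h1 z hz
  obtain ⟨t, -, ht⟩ := Finset.exists_le_of_sum_le (Finset.univ_nonempty) h3
  exact ⟨t, ht⟩

end Pool.Agent.H188.UB
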