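import Pool.Agent.H188.NL.Defs

/-!
# Upper bound `C n (log n) ^ 2` for the number of occurrences of abelian squares
-/

set_option autoImplicit false

namespace Pool.Agent.H188.UB

/-- the pairs (centre, half-length) inside `[0, n]` -/
noncomputable def P (n : ℕ) : Finset (ℤ × ℤ) :=
  ((Finset.Icc (1 : ℤ) n) ×ˢ (Finset.Icc (1 : ℤ) n)).filter
    (fun z => z.2 ≤ z.1 ∧ z.1 + z.2 ≤ (n : ℤ))

/-- U1: from prefix counts to words -/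
def S_wrd : Prop := ∀ (F : ℤ → ℤ) (n : ℕ), (∀ x, F (x + 1) = F x ∨ F (x + 1) = F x + 1) →
  ∃ w : List Bool, w.length = n ∧ (Pool.Agent.H188.NL.occ w).ncard ≤
    ((P n).filter (fun z => F (z.1 + z.2) + F (z.1 - z.2) = 2 * F z.1)).card

open Classical in
/-- U2: averaging -/
def S_avg : Prop := ∀ (J M : ℕ) (Q : Finset (ℤ × ℤ)) (b : ℤ × ℤ → Fin J × Bool → ℝ)
  (lam : ℤ × ℤ → ℝ), 1 ≤ M → (∀ z ∈ Q, 0 < lam z ∧ ∃ i, lam z ≤ |b z i|) →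
  ∃ t : Fin J × Bool → Fin M,
    ((Q.filter (fun z => |∑ i, ((t i : ℕ) : ℝ) * b z i| < 2)).card : ℝ) ≤
      ∑ z ∈ Q, (4 / lam z + 1) / M

/-- U3: second differences of cosine and sine -/
def S_trig : Prop :=
  (∀ x u s : ℝ, 0 < s → s / 4 ≤ u → u ≤ s / 2 →
    s ≤ |s * (Real.cos (2 * Real.pi * (x + u) / s) + Real.cos (2 * Real.pi * (x - u) / s) -
      2 * Real.cos (2 * Real.pi * x / s))| ∨
    s ≤ |s * (Real.sin (2 * Real.pi * (x + u) / s) + Real.sin (2 * Real.pi * (x - u) / s) -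
      2 * Real.sin (2 * Real.pi * x / s))|) ∧
  (∀ x s : ℝ, 0 < s →
    |s * Real.cos (2 * Real.pi * (x + 1) / s) - s * Real.cos (2 * Real.pi * x / s)| ≤ 13 / 2 ∧
    |s * Real.sin (2 * Real.pi * (x + 1) / s) - s * Real.sin (2 * Real.pi * x / s)| ≤ 13 / 2)

/-- U4: rounding -/
def S_floor : Prop := ∀ g : ℤ → ℝ, (∀ x, |g (x + 1) - g x| ≤ 1 / 2) →
  ∃ F : ℤ → ℤ, (∀ x, F (x + 1) = F x ∨ F (x + 1) = F x + 1) ∧
    ∀ x u, F (x + u) + F (x - u) = 2 * F x → |g (x + u) + g (x - u) - 2 * g x| < 2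

/-- U5: the sum -/
def S_sum : Prop := ∀ n : ℕ, 3 ≤ n →
  ∑ z ∈ P n, (52 * ((Nat.log 2 n + 1 : ℕ) : ℝ) / (z.2 : ℝ) + 1 / n) ≤
    240 * n * (Real.log n) ^ 2

end Pool.Agent.H188.UB
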