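import Pool.Agent.H188.UB.Defs

/-!
# Rounding (proof of `S_floor`), helper134 for helper188
-/

set_option autoImplicit false

namespace Pool.Agent.H188.UB

theorem t_floor : S_floor := by
  intro g hg
  refine ⟨fun x => ⌊(x : ℝ) / 2 + g x⌋, ?_, ?_⟩
  · intro x
    have h1 := hg x
    rw [abs_le] at h1
    have h2 := Int.floor_le ((x : ℝ) / 2 + g x)
    have h3 := Int.lt_floor_add_one ((x : ℝ) / 2 + g x)
    have h4 := Int.floor_le (((x + 1 : ℤ) : ℝ) / 2 + g (x + 1))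
    have h5 := Int.lt_floor_add_one (((x + 1 : ℤ) : ℝ) / 2 + g (x + 1))
    have h6 : ((x + 1 : ℤ) : ℝ) = (x : ℝ) + 1 := by push_cast; ring
    rw [h6] at h4 h5
    simp only
    rw [h6]
    have h7 : (⌊(x : ℝ) / 2 + g x⌋ : ℝ) < (⌊((x : ℝ) + 1) / 2 + g (x + 1)⌋ : ℝ) + 1 := by linarith
    have h8 : (⌊((x : ℝ) + 1) / 2 + g (x + 1)⌋ : ℝ) < (⌊(x : ℝ) / 2 + g x⌋ : ℝ) + 2 := by linarith
    have h9 : ⌊(x : ℝ) / 2 + g x⌋ < ⌊((x : ℝ) + 1) / 2 + g (x + 1)⌋ + 1 := by exact_mod_cast h7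
    have h10 : ⌊((x : ℝ) + 1) / 2 + g (x + 1)⌋ < ⌊(x : ℝ) / 2 + g x⌋ + 2 := by exact_mod_cast h8
    omega
  · intro x u h
    simp only at h
    have h1 := Int.floor_le (((x + u : ℤ) : ℝ) / 2 + g (x + u))
    have h2 := Int.lt_floor_add_one (((x + u : ℤ) : ℝ) / 2 + g (x + u))
    have h3 := Int.floor_le (((x - u : ℤ) : ℝ) / 2 + g (x - u))
    have h4 := Int.lt_floor_add_one (((x - u : ℤ) : ℝ) / 2 + g (x - u))
    have h5 := Int.floor_le ((x : ℝ) / 2 + g x)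
    have h6 := Int.lt_floor_add_one ((x : ℝ) / 2 + g x)
    have h7 : (⌊((x + u : ℤ) : ℝ) / 2 + g (x + u)⌋ : ℝ) + (⌊((x - u : ℤ) : ℝ) / 2 + g (x - u)⌋ : ℝ) =
        2 * (⌊(x : ℝ) / 2 + g x⌋ : ℝ) := by exact_mod_cast h
    have h8 : ((x + u : ℤ) : ℝ) = (x : ℝ) + u := by push_cast; ring
    have h9 : ((x - u : ℤ) : ℝ) = (x : ℝ) - u := by push_cast; ring
    rw [h8] at h1 h2 h7
    rw [h9] at h3 h4 h7
    rw [abs_lt]
    constructor <;> linarith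

end Pool.Agent.H188.UB
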