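import Pool.Agent.H188.UB.Defs

/-!
# Second differences of cosine and sine
-/

set_option autoImplicit false

namespace Pool.Agent.H188.UB

theorem Trig.cos_lip (x y : ℝ) : |Real.cos x - Real.cos y| ≤ |x - y| := by
  have h1 := Real.cos_sub_cos x y
  rw [h1, abs_mul, abs_mul, abs_neg, abs_two]
  have h2 := Real.abs_sin_le_one ((x + y) / 2)
  have h3 : |Real.sin ((x - y) / 2)| ≤ |(x - y) / 2| := Real.abs_sin_le_abs
  have h4 : |(x - y) / 2| = |x - y| / 2 := by rw [abs_div, abs_two]
  rw [h4] at h3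
  have h5 := abs_nonneg (Real.sin ((x - y) / 2))
  calc 2 * |Real.sin ((x + y) / 2)| * |Real.sin ((x - y) / 2)|
      ≤ 2 * 1 * (|x - y| / 2) := by gcongr
    _ = |x - y| := by ring

theorem Trig.sin_lip (x y : ℝ) : |Real.sin x - Real.sin y| ≤ |x - y| := by
  have h1 := Real.sin_sub_sin x y
  rw [h1, abs_mul, abs_mul, abs_two]
  have h2 := Real.abs_cos_le_one ((x + y) / 2)
  have h3 : |Real.sin ((x - y) / 2)| ≤ |(x - y) / 2| := Real.abs_sin_le_abs
  have h4 : |(x - y) / 2| = |x - y| / 2 := by rw [abs_div, abs_two]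
  rw [h4] at h3
  calc 2 * |Real.sin ((x - y) / 2)| * |Real.cos ((x + y) / 2)|
      ≤ 2 * (|x - y| / 2) * 1 := by gcongr
    _ = |x - y| := by ring

theorem t_trig : S_trig := by
  refine ⟨?_, ?_⟩
  · intro x u s hs h1 h2
    have hpi := Real.pi_pos
    obtain ⟨A, hA⟩ : ∃ A : ℝ, A = 2 * Real.pi * x / s := ⟨_, rfl⟩
    obtain ⟨B, hB⟩ : ∃ B : ℝ, B = 2 * Real.pi * u / s := ⟨_, rfl⟩
    have e1 : 2 * Real.pi * (x + u) / s = A + B := by rw [hA, hB]; ring
    have e2 : 2 * Real.pi * (x - u) / s = A - B := by rw [hA, hB]; ring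
    have hB1 : Real.pi / 2 ≤ B := by
      rw [hB, le_div_iff₀ hs]
      nlinarith
    have hB2 : B ≤ Real.pi := by
      rw [hB, div_le_iff₀ hs]
      nlinarith
    have hB3 : Real.cos B ≤ 0 := Real.cos_nonpos_of_pi_div_two_le_of_le hB1 (by linarith)
    rw [e1, e2, ← hA]
    have f1 : s * (Real.cos (A + B) + Real.cos (A - B) - 2 * Real.cos A) =
        -(2 * s * (1 - Real.cos B) * Real.cos A) := by
      rw [Real.cos_add, Real.cos_sub]
      ring
    have f2 : s * (Real.sin (A + B) + Real.sin (A - B) - 2 * Real.sin A) =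
        -(2 * s * (1 - Real.cos B) * Real.sin A) := by
      rw [Real.sin_add, Real.sin_sub]
      ring
    rw [f1, f2, abs_neg, abs_neg, abs_mul (2 * s * (1 - Real.cos B)) (Real.cos A),
      abs_mul (2 * s * (1 - Real.cos B)) (Real.sin A)]
    have h0 : 0 ≤ 2 * s * (1 - Real.cos B) := by
      have : 0 ≤ 1 - Real.cos B := by linarith
      positivity
    rw [abs_of_nonneg h0]
    have h3 : 2 * s ≤ 2 * s * (1 - Real.cos B) := by
      have : 1 ≤ 1 - Real.cos B := by linarith
      nlinarith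
    have key : ∀ c : ℝ, 1 / 2 ≤ |c| → s ≤ 2 * s * (1 - Real.cos B) * |c| := by
      intro c hc
      calc s = 2 * s * (1 / 2) := by ring
        _ ≤ 2 * s * (1 - Real.cos B) * |c| := by gcongr
    rcases le_or_gt (1 / 2) |Real.cos A| with h | h
    · exact Or.inl (key _ h)
    · refine Or.inr (key _ ?_)
      by_contra h4
      rw [not_le] at h4
      have h5 := Real.sin_sq_add_cos_sq A
      have h6 : Real.cos A ^ 2 < (1 / 2) ^ 2 := by
        rw [sq_lt_sq, abs_of_pos (show (0 : ℝ) < 1 / 2 by norm_num)]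
        exact h
      have h7 : Real.sin A ^ 2 < (1 / 2) ^ 2 := by
        rw [sq_lt_sq, abs_of_pos (show (0 : ℝ) < 1 / 2 by norm_num)]
        exact h4
      norm_num at h6 h7
      linarith
  · intro x s hs
    have hpi := Real.pi_pos
    have hpi2 : Real.pi < 3.15 := Real.pi_lt_d2
    have e1 : |2 * Real.pi * (x + 1) / s - 2 * Real.pi * x / s| = 2 * Real.pi / s := by
      have : 2 * Real.pi * (x + 1) / s - 2 * Real.pi * x / s = 2 * Real.pi / s := by ring
      rw [this, abs_of_pos (by positivity)]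
    have e2 : s * (2 * Real.pi / s) ≤ 13 / 2 := by
      rw [mul_div_cancel₀ _ hs.ne']
      norm_num at hpi2
      linarith
    constructor
    · rw [← mul_sub, abs_mul, abs_of_pos hs]
      refine le_trans (mul_le_mul_of_nonneg_left (Trig.cos_lip _ _) hs.le) ?_
      rw [e1]
      exact e2
    · rw [← mul_sub, abs_mul, abs_of_pos hs]
      refine le_trans (mul_le_mul_of_nonneg_left (Trig.sin_lip _ _) hs.le) ?_
      rw [e1]
      exact e2

end Pool.Agent.H188.UB
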